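import Mathlib
import Pool.Agent.P.MP_c8ecb2_nt.RP.Tuple

set_option autoImplicit false

namespace Pool.Agent.P.MP_c5cf5d_nt

open Pool.Agent.P.MP_c8ecb2_nt.RP

/-- the tail of the expansion -/
noncomputable def tl (b : ℕ) (e : ℕ → ℕ) (i : ℕ) : ℝ := ∑' n : ℕ, (e (n + i) : ℝ) / (b : ℝ) ^ (n + 1)

section
variable {b : ℕ} (hb : 2 ≤ b) {e : ℕ → ℕ} (he : ∀ n, e n ≤ 1)
include hb he

theorem term_le (i n : ℕ) : (e (n + i) : ℝ) / (b : ℝ) ^ (n + 1) ≤ 1 / 2 / 2 ^ n := by
  have h1 : (e (n + i) : ℝ) ≤ 1 := by exact_mod_cast he _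
  have h2 : (2 : ℝ) ≤ b := by exact_mod_cast hb
  rw [div_div, ← pow_succ']
  gcongr

theorem summ (i : ℕ) : Summable fun n : ℕ => (e (n + i) : ℝ) / (b : ℝ) ^ (n + 1) :=
  Summable.of_nonneg_of_le (fun _ => by positivity) (term_le hb he i) (summable_geometric_two' 1)

theorem tl_le (i : ℕ) : tl b e i ≤ 1 := by
  have := (summ hb he i).tsum_le_tsum (term_le hb he i) (summable_geometric_two' 1)
  rwa [tsum_geometric_two' 1] at this

theorem tl_step (i : ℕ) : tl b e i * b = e i + tl b e (i + 1) := by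
  have hb0 : (b : ℝ) ≠ 0 := by positivity
  rw [tl, (summ hb he i).tsum_eq_zero_add, add_mul, ← tsum_mul_right, tl]
  congr 1
  · simp [hb0]
  · refine tsum_congr fun n => ?_
    rw [show n + 1 + i = n + (i + 1) by ring, pow_succ _ (n + 1)]
    field_simp

theorem tl_lt (hper : ¬ ∃ N p : ℕ, 0 < p ∧ ∀ n, N ≤ n → e (n + p) = e n) (i : ℕ) :
    tl b e i < 1 := by
  refine lt_of_le_of_ne (tl_le hb he i) fun h => hper ⟨i, 1, one_pos, ?_⟩
  have h2 : (2 : ℝ) ≤ b := by exact_mod_cast hb
  have key : ∀ k, tl b e (i + k) = 1 → e (i + k) = 1 ∧ tl b e (i + k + 1) = 1 := by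
    intro k hk
    have h1 := tl_step hb he (i + k)
    have h3 := tl_le hb he (i + k + 1)
    have h4 : (e (i + k) : ℝ) ≤ 1 := by exact_mod_cast he _
    rw [hk] at h1
    exact ⟨by exact_mod_cast (by linarith : (e (i + k) : ℝ) = 1), by linarith⟩
  have all : ∀ k, tl b e (i + k) = 1 := by
    intro k
    induction k with
    | zero => exact h
    | succ k ih => exact (key k ih).2
  intro n hn
  obtain ⟨k, rfl⟩ := Nat.exists_eq_add_of_le hn
  rw [(key k (all k)).1, add_assoc, (key (k + 1) (all _)).1]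

theorem fract_eq (hper : ¬ ∃ N p : ℕ, 0 < p ∧ ∀ n, N ≤ n → e (n + p) = e n) (i : ℕ) :
    Int.fract (tl b e 0 * (b : ℝ) ^ i) = tl b e i := by
  have h : ∃ z : ℤ, tl b e 0 * (b : ℝ) ^ i = z + tl b e i := by
    induction i with
    | zero => exact ⟨0, by simp⟩
    | succ i ih =>
      obtain ⟨z, hz⟩ := ih
      refine ⟨z * b + e i, ?_⟩
      rw [pow_succ, ← mul_assoc, hz, add_mul, tl_step hb he]
      push_cast; ring
  obtain ⟨z, hz⟩ := h
  rw [hz, Int.fract_intCast_add]
  exact Int.fract_eq_self.2 ⟨tsum_nonneg fun _ => by positivity, tl_lt hb he hper i⟩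

theorem dig_eq (hper : ¬ ∃ N p : ℕ, 0 < p ∧ ∀ n, N ≤ n → e (n + p) = e n) (i : ℕ) :
    dig b (tl b e 0) (i + 1) = e i := by
  have h1 := Count.dig_step b hb (tl b e 0) i
  rw [fract_eq hb he hper, fract_eq hb he hper, tl_step hb he] at h1
  exact_mod_cast (by linarith : ((dig b (tl b e 0) (i + 1) : ℤ) : ℝ) = e i)

theorem irr (hper : ¬ ∃ N p : ℕ, 0 < p ∧ ∀ n, N ≤ n → e (n + p) = e n) :
    Irrational (tl b e 0) := by
  rintro ⟨q, hq⟩
  have hden : (0 : ℝ) < q.den := by exact_mod_cast q.den_pos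
  have h1 : ∀ i, ∃ k : Fin q.den, tl b e i * q.den = (k : ℕ) := by
    intro i
    have h2 := fract_eq hb he hper i
    have h3 : tl b e i * q.den =
        ((q.num * b ^ i - ⌊tl b e 0 * (b : ℝ) ^ i⌋ * q.den : ℤ) : ℝ) := by
      rw [← h2, Int.fract, sub_mul]
      push_cast
      congr 1
      rw [← hq, Rat.cast_def]
      field_simp
    generalize q.num * b ^ i - ⌊tl b e 0 * (b : ℝ) ^ i⌋ * q.den = z at h3
    have h4 : 0 ≤ tl b e i := tsum_nonneg fun _ => by positivity
    have h5 := tl_lt hb he hper i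
    have h6 : 0 ≤ z := by
      have : (0 : ℝ) ≤ z := h3 ▸ by positivity
      exact_mod_cast this
    have h7 : z < q.den := by
      have : (z : ℝ) < q.den := h3 ▸ by nlinarith
      exact_mod_cast this
    refine ⟨⟨z.toNat, by omega⟩, ?_⟩
    rw [h3]
    exact_mod_cast (Int.toNat_of_nonneg h6).symm
  choose k hk using h1
  have main : ∀ i i', i < i' → k i = k i' → False := by
    intro i i' hlt hkk
    have h0 : tl b e i = tl b e i' := by
      have := hk i
      rw [hkk, ← hk i'] at this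
      exact mul_right_cancel₀ hden.ne' this
    have key : ∀ t, tl b e (i + t) = tl b e (i' + t) →
        e (i + t) = e (i' + t) ∧ tl b e (i + t + 1) = tl b e (i' + t + 1) := by
      intro t ht
      have a1 := tl_step hb he (i + t)
      have a2 := tl_step hb he (i' + t)
      have a3 := tl_lt hb he hper (i + t + 1)
      have a4 := tl_lt hb he hper (i' + t + 1)
      have a5 : 0 ≤ tl b e (i + t + 1) := tsum_nonneg fun _ => by positivity
      have a6 : 0 ≤ tl b e (i' + t + 1) := tsum_nonneg fun _ => by positivity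
      rw [ht] at a1
      have a7 : (e (i + t) : ℝ) < e (i' + t) + 1 := by linarith
      have a8 : (e (i' + t) : ℝ) < e (i + t) + 1 := by linarith
      have a9 : e (i + t) < e (i' + t) + 1 := by exact_mod_cast a7
      have a10 : e (i' + t) < e (i + t) + 1 := by exact_mod_cast a8
      have a11 : e (i + t) = e (i' + t) := by omega
      rw [a11] at a1
      exact ⟨a11, by linarith⟩
    have all : ∀ t, tl b e (i + t) = tl b e (i' + t) := by
      intro t
      induction t with
      | zero => exact h0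
      | succ t ih => exact (key t ih).2
    refine hper ⟨i, i' - i, by omega, fun n hn => ?_⟩
    obtain ⟨t, rfl⟩ := Nat.exists_eq_add_of_le hn
    rw [(key t (all t)).1]
    congr 1
    omega
  obtain ⟨i, i', hne, hkk⟩ := Finite.exists_ne_map_eq_of_infinite k
  rcases lt_or_gt_of_ne hne with h | h
  · exact main i i' h hkk
  · exact main i' i h hkk.symm

theorem low_complexity (hper : ¬ ∃ N p : ℕ, 0 < p ∧ ∀ n, N ≤ n → e (n + p) = e n)
    (halg : IsAlgebraic ℚ (tl b e 0)) (ε : ℝ) (hε : 0 < ε) :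
    ∃ c : ℝ, 0 < c ∧ ∀ᶠ N : ℕ in Filter.atTop, ∀ s : Finset ℕ,
      (∀ m ∈ s, m ≤ N ∧ ∃ i i' : ℕ,
        (i' : ℝ) ≤ c * m * Real.log m / Real.log (Real.log m) ∧
          i < i' ∧ ∀ t < m, e (i + t) = e (i' + t)) →
      ∑ m ∈ s, (1 / (m : ℝ)) ≤ ε * Real.log N := by
  obtain ⟨C, hC⟩ := twice_bound b hb _ halg (irr hb he hper)
  have hC0 : 0 ≤ C := by
    have h1 := hC 2 le_rfl ∅ (by simp)
    have h2 := Count.half_le_log (le_refl 2)
    simp only [Finset.card_empty, Nat.cast_zero] at h1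
    by_contra hc
    push Not at hc
    push_cast at h1 h2
    nlinarith
  refine density_of_count (fun i i' m => i < i' ∧ ∀ t < m, e (i + t) = e (i' + t))
    (fun i i' m m' hm hq => ⟨hq.1, fun t ht => hq.2 t (ht.trans_le hm)⟩) (4 * C) (by positivity)
    (fun K hK s hs => ?_) ε hε
  have h1 := hC (2 * K) (by omega) s fun k hk => by
    obtain ⟨i, i', h1, h2, h3⟩ := hs k hk
    refine ⟨i + 1, i' + 1, by omega, by omega, ?_, fun t ht => ?_⟩
    · have : 1 ≤ K * 2 ^ k := Nat.mul_pos (by omega) (by positivity)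
      rw [mul_assoc]; omega
    · rw [show i + 1 + t = i + t + 1 by ring, show i' + 1 + t = i' + t + 1 by ring,
        dig_eq hb he hper, dig_eq hb he hper, h3 t ht]
  have hK2 : (2 : ℝ) ≤ K := by exact_mod_cast hK
  have h2 : Real.log ((2 * K : ℕ) : ℝ) ≤ 2 * Real.log K := by
    have : ((2 * K : ℕ) : ℝ) ≤ (K : ℝ) ^ 2 := by push_cast; nlinarith
    have h5 := Real.log_le_log (by positivity) this
    rw [Real.log_pow] at h5
    exact_mod_cast h5
  refine h1.trans ((mul_le_mul_of_nonneg_left h2 (by positivity)).trans (le_of_eq ?_))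
  push_cast; ring

end

end Pool.Agent.P.MP_c5cf5d_nt
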